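import Mathlib

/-!
# Coprime `r`-powerful numbers with an `r`-powerful sum

For every `r ≥ 6` the identity
`(u + v) ^ r = (u - v) ^ r + ∑_{i odd} 2 * C(r, i) * u ^ (r - i) * v ^ i`
with `v = 2 ^ r` and `u` a high power of the product of the first odd numbers gives
`1 + ⌈r / 2⌉` distinct `r`-powerful numbers with an `r`-powerful sum.  The number of terms is then
raised by splitting `T = T / 3 + 2 T / 3`.
-/

set_option autoImplicit false

namespace Pool.Agent.N742.RPow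

open Finset

/-- `n` is `r`-powerful. -/
def Powerful (r n : ℕ) : Prop := 0 < n ∧ ∀ p : ℕ, p.Prime → p ∣ n → p ^ r ∣ n

lemma powerful_pow {r x : ℕ} (hx : 0 < x) : Powerful r (x ^ r) := by
  refine ⟨pow_pos hx r, fun p hp h => ?_⟩
  exact pow_dvd_pow_of_dvd (hp.dvd_of_dvd_pow h) r

/-- The invariant of the construction: `x₀` is the exceptional element. -/
structure Inv (r K x₀ X : ℕ) (S : Finset ℕ) : Prop where
  pw : ∀ x ∈ S, Powerful r x
  three : ∀ x ∈ S, 3 ∣ x → 3 ^ K ∣ x ∧ 2 ^ r ∣ x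
  ex : ∃ x ∈ S, 3 ∣ x
  sum : ∑ x ∈ S, x = X
  mem : x₀ ∈ S
  odd : ¬ 2 ∣ x₀
  cop : ∀ x ∈ S, x ≠ x₀ → Nat.Coprime x x₀
  cop3 : ¬ 3 ∣ x₀

lemma step {r K x₀ X : ℕ} {S : Finset ℕ} (hr : 1 ≤ r) (hK : r ≤ K) (h : Inv r (K + 1) x₀ X S) :
    ∃ S' : Finset ℕ, S'.card = S.card + 1 ∧ Inv r K x₀ X S' := by
  classical
  -- smallest element divisible by 3
  set F := S.filter (fun x => 3 ∣ x) with hF
  have hFne : F.Nonempty := by
    obtain ⟨x, hx, hx3⟩ := h.ex
    exact ⟨x, by simp [hF, hx, hx3]⟩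
  set T := F.min' hFne with hT
  have hTF : T ∈ F := F.min'_mem hFne
  have hTS : T ∈ S := (mem_filter.1 hTF).1
  have hT3 : 3 ∣ T := (mem_filter.1 hTF).2
  have hmin : ∀ x ∈ S, 3 ∣ x → T ≤ x := fun x hx hx3 =>
    F.min'_le x (by simp [hF, hx, hx3])
  have hTpw := h.pw T hTS
  have hTpos := hTpw.1
  obtain ⟨hTK, hT2⟩ := h.three T hTS hT3
  obtain ⟨W, hW⟩ := hT3
  have hWpos : 0 < W := by omega
  have hTx : T ≠ x₀ := by
    intro e; apply h.cop3; rw [← e]; exact ⟨W, hW⟩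
  -- divisibility of W
  have hWK : 3 ^ K ∣ W := by
    rw [hW, pow_succ, mul_comm] at hTK
    exact Nat.dvd_of_mul_dvd_mul_left (by norm_num) hTK
  have h3W : 3 ∣ W := (dvd_pow_self 3 (by omega)).trans hWK
  have hW2 : 2 ^ r ∣ W := by
    rw [hW] at hT2
    exact Nat.Coprime.dvd_of_dvd_mul_left (Nat.Coprime.pow_left r (by norm_num)) hT2
  have hWcop : Nat.Coprime W x₀ := by
    have := h.cop T hTS hTx
    rw [hW] at this
    exact Nat.Coprime.coprime_mul_left this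
  have h2cop : Nat.Coprime 2 x₀ := (Nat.Prime.coprime_iff_not_dvd Nat.prime_two).2 h.odd
  have hWpw : Powerful r W := by
    refine ⟨hWpos, fun p hp hpW => ?_⟩
    by_cases h3 : p = 3
    · subst h3; exact (pow_dvd_pow 3 hK).trans hWK
    · have : p ^ r ∣ 3 * W := by rw [← hW]; exact hTpw.2 p hp (by rw [hW]; exact Dvd.dvd.mul_left hpW 3)
      refine Nat.Coprime.dvd_of_dvd_mul_left (Nat.Coprime.pow_left r ?_) this
      exact (Nat.coprime_primes hp Nat.prime_three).2 h3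
  have h2Wpw : Powerful r (2 * W) := by
    refine ⟨by omega, fun p hp hpW => ?_⟩
    rcases (Nat.Prime.dvd_mul hp).1 hpW with h2 | h2
    · have : p = 2 := (Nat.prime_dvd_prime_iff_eq hp Nat.prime_two).1 h2
      subst this; exact Dvd.dvd.mul_left hW2 2
    · exact Dvd.dvd.mul_left (hWpw.2 p hp h2) 2
  have hWS : W ∉ S := fun hc => by have := hmin W hc h3W; omega
  have h2WS : 2 * W ∉ S := fun hc => by
    have := hmin (2 * W) hc (Dvd.dvd.mul_left h3W 2); omega
  have hWE : W ∉ S.erase T := fun hc => hWS (mem_of_mem_erase hc)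
  have h2WE : 2 * W ∉ insert W (S.erase T) := by
    intro hc
    rcases mem_insert.1 hc with hc | hc
    · omega
    · exact h2WS (mem_of_mem_erase hc)
  refine ⟨insert (2 * W) (insert W (S.erase T)), ?_, ?_⟩
  · rw [card_insert_of_notMem h2WE, card_insert_of_notMem hWE, card_erase_of_mem hTS]
    have : 0 < S.card := card_pos.2 ⟨T, hTS⟩
    omega
  · have hmem : ∀ x ∈ insert (2 * W) (insert W (S.erase T)), x = 2 * W ∨ x = W ∨ x ∈ S := by
      intro x hx
      rcases mem_insert.1 hx with hx | hx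
      · exact Or.inl hx
      · rcases mem_insert.1 hx with hx | hx
        · exact Or.inr (Or.inl hx)
        · exact Or.inr (Or.inr (mem_of_mem_erase hx))
    refine ⟨?_, ?_, ?_, ?_, ?_, h.odd, ?_, h.cop3⟩
    · intro x hx
      rcases hmem x hx with rfl | rfl | hx
      · exact h2Wpw
      · exact hWpw
      · exact h.pw x hx
    · intro x hx hx3
      rcases hmem x hx with rfl | rfl | hx
      · exact ⟨Dvd.dvd.mul_left hWK 2, Dvd.dvd.mul_left hW2 2⟩
      · exact ⟨hWK, hW2⟩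
      · obtain ⟨h1, h2⟩ := h.three x hx hx3
        exact ⟨(pow_dvd_pow 3 (Nat.le_succ K)).trans h1, h2⟩
    · exact ⟨W, by simp, h3W⟩
    · rw [sum_insert h2WE, sum_insert hWE, ← h.sum, ← add_sum_erase S (fun x => x) hTS]
      omega
    · have : x₀ ∈ S.erase T := mem_erase.2 ⟨fun e => hTx e.symm, h.mem⟩
      simp [this]
    · intro x hx hne
      rcases hmem x hx with rfl | rfl | hx
      · exact Nat.Coprime.mul_left h2cop hWcop
      · exact hWcop
      · exact h.cop x hx hne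

lemma steps {r x₀ X : ℕ} {S : Finset ℕ} (hr : 1 ≤ r) (j K : ℕ) (hK : r ≤ K)
    (h : Inv r (K + j) x₀ X S) :
    ∃ S' : Finset ℕ, S'.card = S.card + j ∧ Inv r K x₀ X S' := by
  induction j generalizing S with
  | zero => exact ⟨S, by simp, by simpa using h⟩
  | succ j ih =>
    obtain ⟨S₁, hc, h₁⟩ := step (K := K + j) hr (by omega) (by simpa [add_assoc] using h)
    obtain ⟨S₂, hc₂, h₂⟩ := ih h₁
    exact ⟨S₂, by omega, h₂⟩

/-! ### The base set -/

/-- product of the first odd numbers -/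
def Q (r : ℕ) : ℕ := ∏ k ∈ range r, (2 * k + 1)

lemma Q_odd (r : ℕ) : ¬ 2 ∣ Q r := by
  unfold Q
  rw [Nat.Prime.prime Nat.prime_two |>.dvd_finsetProd_iff]
  rintro ⟨k, -, hk⟩
  omega

lemma Q_dvd {r p : ℕ} (hp : p.Prime) (hp2 : p ≠ 2) (hpr : p ≤ r) : p ∣ Q r := by
  have hodd : p % 2 = 1 := (hp.eq_two_or_odd).resolve_left hp2
  have : p = 2 * (p / 2) + 1 := by omega
  rw [this]
  exact dvd_prod_of_mem (fun k => 2 * k + 1) (mem_range.2 (by omega))

def U (r : ℕ) : ℕ := Q r ^ (2 * r)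
def V (r : ℕ) : ℕ := 2 ^ r

lemma Q_ge (r : ℕ) (hr : 2 ≤ r) : 3 ≤ Q r :=
  Nat.le_of_dvd (by unfold Q; exact prod_pos (fun k _ => by omega))
    (Dvd.dvd.trans (by norm_num : (3 : ℕ) ∣ 2 * 1 + 1)
      (dvd_prod_of_mem (fun k => 2 * k + 1) (mem_range.2 (by omega))))

lemma U_gt (r : ℕ) (hr : 2 ≤ r) : 2 ^ r * V r < U r := by
  unfold U V
  calc 2 ^ r * 2 ^ r = 4 ^ r := by rw [← mul_pow]; norm_num
    _ < 9 ^ r := Nat.pow_lt_pow_left (by norm_num) (by omega)
    _ = 3 ^ (2 * r) := by rw [pow_mul]; norm_num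
    _ ≤ Q r ^ (2 * r) := Nat.pow_le_pow_left (Q_ge r hr) _

lemma V_lt_U (r : ℕ) (hr : 2 ≤ r) : V r < U r := by
  have h := U_gt r hr
  have : V r ≤ 2 ^ r * V r := Nat.le_mul_of_pos_left _ (by positivity)
  omega

/-- the terms -/
def t (r i : ℕ) : ℕ := 2 * (r.choose i * U r ^ (r - i) * V r ^ i)

lemma Qpos (r : ℕ) : 0 < Q r := by unfold Q; exact prod_pos (fun k _ => by omega)
lemma Upos (r : ℕ) : 0 < U r := pow_pos (Qpos r) _
lemma Vpos (r : ℕ) : 0 < V r := by unfold V; positivity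

lemma t_pos {r i : ℕ} (hi : i ≤ r) : 0 < t r i := by
  unfold t
  have := Nat.choose_pos hi
  have := Upos r
  have := Vpos r
  positivity

lemma t_succ_lt {r i : ℕ} (hr : 2 ≤ r) (hi : i < r) : t r (i + 1) < t r i := by
  unfold t
  have h1 : r.choose (i + 1) ≤ 2 ^ r := Nat.choose_le_two_pow r (i + 1)
  have h2 : 1 ≤ r.choose i := Nat.choose_pos hi.le
  have h3 : r - i = (r - (i + 1)) + 1 := by omega
  have h4 : r.choose (i + 1) * V r < r.choose i * U r := by
    calc r.choose (i + 1) * V r ≤ 2 ^ r * V r := Nat.mul_le_mul_right _ h1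
      _ < U r := U_gt r hr
      _ ≤ r.choose i * U r := Nat.le_mul_of_pos_left _ h2
  have h5 : 0 < U r ^ (r - (i + 1)) * V r ^ i :=
    Nat.mul_pos (pow_pos (Upos r) _) (pow_pos (Vpos r) _)
  rw [h3, pow_succ, pow_succ]
  calc 2 * (r.choose (i + 1) * U r ^ (r - (i + 1)) * (V r ^ i * V r))
      = 2 * ((r.choose (i + 1) * V r) * (U r ^ (r - (i + 1)) * V r ^ i)) := by ring
    _ < 2 * ((r.choose i * U r) * (U r ^ (r - (i + 1)) * V r ^ i)) := by
        have := Nat.mul_lt_mul_of_pos_right h4 h5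
        omega
    _ = 2 * (r.choose i * (U r ^ (r - (i + 1)) * U r) * V r ^ i) := by ring

lemma t_anti {r : ℕ} (hr : 2 ≤ r) {i j : ℕ} (hij : i < j) (hj : j ≤ r) : t r j < t r i := by
  induction j with
  | zero => omega
  | succ j ih =>
    rcases Nat.lt_or_ge i j with h | h
    · exact (t_succ_lt hr (by omega)).trans (ih h (by omega))
    · have : i = j := by omega
      subst this
      exact t_succ_lt hr (by omega)

lemma prime_dvd_t {r i p : ℕ} (hp : p.Prime) (hi1 : 1 ≤ i) (hi : i ≤ r) (h : p ∣ t r i) :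
    p = 2 ∨ (p ≠ 2 ∧ p ∣ Q r ∧ i < r) := by
  by_cases hp2 : p = 2
  · exact Or.inl hp2
  right
  unfold t at h
  have hnot2 : ¬ p ∣ 2 := fun h => hp2 ((Nat.prime_dvd_prime_iff_eq hp Nat.prime_two).1 h)
  have h' := ((Nat.Prime.dvd_mul hp).1 h).resolve_left hnot2
  have hV : ¬ p ∣ V r ^ i := fun h => hnot2 (hp.dvd_of_dvd_pow (hp.dvd_of_dvd_pow h))
  have h'' := ((Nat.Prime.dvd_mul hp).1 h').resolve_right hV
  rcases Nat.lt_or_ge i r with hlt | hge
  · refine ⟨hp2, ?_, hlt⟩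
    rcases (Nat.Prime.dvd_mul hp).1 h'' with h3 | h3
    · refine Q_dvd hp hp2 ?_
      have : p ∣ r.factorial := h3.trans
        ⟨i.factorial * (r - i).factorial, by
          rw [← Nat.choose_mul_factorial_mul_factorial hi]; ring⟩
      exact (hp.dvd_factorial).1 this
    · exact hp.dvd_of_dvd_pow (hp.dvd_of_dvd_pow h3)
  · have : i = r := by omega
    subst this
    simp at h''
    exact absurd h'' hp.one_lt.ne'

lemma two_pow_dvd_t {r i : ℕ} (hi1 : 1 ≤ i) : 2 ^ r ∣ t r i := by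
  unfold t
  refine Dvd.dvd.mul_left (Dvd.dvd.mul_left ?_ _) 2
  exact dvd_pow_self (V r) (by omega)

lemma q_pow_dvd_t {r i p : ℕ} (hpQ : p ∣ Q r) (hi : i < r) : p ^ (2 * r) ∣ t r i := by
  unfold t
  refine Dvd.dvd.mul_left (Dvd.dvd.mul_right (Dvd.dvd.mul_left ?_ _) _) 2
  calc p ^ (2 * r) ∣ Q r ^ (2 * r) := pow_dvd_pow_of_dvd hpQ _
    _ = U r := rfl
    _ ∣ U r ^ (r - i) := dvd_pow_self _ (by omega)

lemma t_powerful {r i : ℕ} (hi1 : 1 ≤ i) (hi : i ≤ r) : Powerful r (t r i) := by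
  refine ⟨t_pos hi, fun p hp h => ?_⟩
  rcases prime_dvd_t hp hi1 hi h with rfl | ⟨-, h1, h2⟩
  · exact two_pow_dvd_t hi1
  · exact (pow_dvd_pow p (by omega)).trans (q_pow_dvd_t h1 h2)

/-- the odd indices `1, 3, 5, …` up to `r` -/
def idx (r : ℕ) : Finset ℕ := (range ((r + 1) / 2)).image (fun k => 2 * k + 1)

lemma mem_idx {r i : ℕ} : i ∈ idx r ↔ i % 2 = 1 ∧ i ≤ r := by
  unfold idx
  simp only [mem_image, mem_range]
  constructor
  · rintro ⟨k, hk, rfl⟩; omega
  · rintro ⟨h1, h2⟩; exact ⟨i / 2, by omega, by omega⟩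

lemma card_idx (r : ℕ) : (idx r).card = (r + 1) / 2 := by
  unfold idx
  rw [card_image_of_injective _ (fun a b h => by simpa using h), card_range]

lemma sum_identity (r : ℕ) (hr : 2 ≤ r) :
    (U r - V r) ^ r + ∑ i ∈ idx r, t r i = (U r + V r) ^ r := by
  have hUV := V_lt_U r hr
  have key : ((U r : ℤ) - V r) ^ r + ∑ i ∈ idx r, (t r i : ℤ) = ((U r : ℤ) + V r) ^ r := by
    have e1 : ((U r : ℤ) + V r) ^ r =
        ∑ i ∈ range (r + 1), (V r : ℤ) ^ i * (U r : ℤ) ^ (r - i) * (r.choose i : ℤ) := by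
      rw [add_comm, add_pow]
    have e2 : ((U r : ℤ) - V r) ^ r =
        ∑ i ∈ range (r + 1), (-(V r : ℤ)) ^ i * (U r : ℤ) ^ (r - i) * (r.choose i : ℤ) := by
      rw [sub_eq_neg_add, add_pow]
    have e3 : ∑ i ∈ idx r, (t r i : ℤ) = ∑ i ∈ range (r + 1),
        (if i % 2 = 1 then (t r i : ℤ) else 0) := by
      rw [← sum_filter]
      apply sum_congr _ (fun _ _ => rfl)
      ext i
      simp only [mem_idx, mem_filter, mem_range]
      omega
    rw [e1, e2, e3, ← sum_add_distrib]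
    apply sum_congr rfl
    intro i _
    by_cases h : i % 2 = 1
    · rw [if_pos h]
      have : Odd i := Nat.odd_iff.2 h
      rw [this.neg_pow]
      unfold t
      push_cast
      ring
    · rw [if_neg h]
      have : Even i := Nat.even_iff.2 (by omega)
      rw [this.neg_pow, add_zero]
  have hc : ((U r - V r : ℕ) : ℤ) = (U r : ℤ) - V r := by
    rw [Nat.cast_sub hUV.le]
  rw [← hc] at key
  exact_mod_cast key

lemma base (r : ℕ) (hr : 3 ≤ r) :
    ∃ S : Finset ℕ, S.card = 1 + (r + 1) / 2 ∧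
      Inv r (2 * r) ((U r - V r) ^ r) ((U r + V r) ^ r) S := by
  classical
  have hr2 : 2 ≤ r := by omega
  have hUV := V_lt_U r hr2
  set x₀ := (U r - V r) ^ r with hx₀
  -- `U` is odd, `V` is even
  have hUodd : ¬ 2 ∣ U r := fun h => Q_odd r (Nat.prime_two.dvd_of_dvd_pow h)
  have hVeven : 2 ∣ V r := dvd_pow_self 2 (by omega)
  have hdodd : ¬ 2 ∣ (U r - V r) := by omega
  have hx₀odd : ¬ 2 ∣ x₀ := fun h => hdodd (Nat.prime_two.dvd_of_dvd_pow h)
  have hQcop : ∀ p : ℕ, p.Prime → p ∣ Q r → ¬ p ∣ (U r - V r) := by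
    intro p hp hpQ h
    have hpU : p ∣ U r := dvd_pow hpQ (by omega)
    have : p ∣ V r := by
      have h1 : V r = U r - (U r - V r) := by omega
      rw [h1]; exact Nat.dvd_sub hpU h
    have hp2 : p ∣ 2 := hp.dvd_of_dvd_pow this
    have : p = 2 := (Nat.prime_dvd_prime_iff_eq hp Nat.prime_two).1 hp2
    subst this
    exact Q_odd r hpQ
  have h3Q : 3 ∣ Q r := Q_dvd Nat.prime_three (by norm_num) hr
  have hcop : ∀ i ∈ idx r, Nat.Coprime (t r i) x₀ := by
    intro i hi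
    obtain ⟨h1, h2⟩ := mem_idx.1 hi
    rw [Nat.coprime_iff_gcd_eq_one]
    by_contra hne
    obtain ⟨p, hp, hpd⟩ := Nat.exists_prime_and_dvd hne
    have ha : p ∣ t r i := hpd.trans (Nat.gcd_dvd_left _ _)
    have hb : p ∣ x₀ := hpd.trans (Nat.gcd_dvd_right _ _)
    rcases prime_dvd_t hp (by omega) h2 ha with rfl | ⟨-, h4, -⟩
    · exact hx₀odd hb
    · exact hQcop p hp h4 (hp.dvd_of_dvd_pow hb)
  have hinj : Set.InjOn (t r) (idx r : Set ℕ) := by
    intro i hi j hj hij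
    obtain ⟨-, hi2⟩ := mem_idx.1 (mem_coe.1 hi)
    obtain ⟨-, hj2⟩ := mem_idx.1 (mem_coe.1 hj)
    by_contra hne
    rcases Nat.lt_or_gt_of_ne hne with h | h
    · have := t_anti hr2 h hj2; omega
    · have := t_anti hr2 h hi2; omega
  have hx₀I : x₀ ∉ (idx r).image (t r) := by
    intro h
    obtain ⟨i, hi, he⟩ := mem_image.1 h
    apply hx₀odd
    rw [← he]
    exact Dvd.intro _ rfl
  refine ⟨insert x₀ ((idx r).image (t r)), ?_, ?_⟩
  · rw [card_insert_of_notMem hx₀I, card_image_of_injOn hinj, card_idx]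
    omega
  have h30 : ¬ 3 ∣ x₀ := fun h => hQcop 3 Nat.prime_three h3Q (Nat.prime_three.dvd_of_dvd_pow h)
  refine ⟨?_, ?_, ?_, ?_, by simp, hx₀odd, ?_, h30⟩
  · intro x hx
    rcases mem_insert.1 hx with rfl | hx
    · exact powerful_pow (by omega)
    · obtain ⟨i, hi, rfl⟩ := mem_image.1 hx
      obtain ⟨h1, h2⟩ := mem_idx.1 hi
      exact t_powerful (by omega) h2
  · intro x hx hx3
    rcases mem_insert.1 hx with rfl | hx
    · exact absurd hx3 h30
    · obtain ⟨i, hi, rfl⟩ := mem_image.1 hx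
      obtain ⟨h1, h2⟩ := mem_idx.1 hi
      refine ⟨?_, two_pow_dvd_t (by omega)⟩
      rcases prime_dvd_t Nat.prime_three (by omega) h2 hx3 with h | ⟨-, h4, h5⟩
      · omega
      · exact q_pow_dvd_t h4 h5
  · refine ⟨t r 1, ?_, ?_⟩
    · apply mem_insert_of_mem
      exact mem_image_of_mem _ (mem_idx.2 ⟨rfl, by omega⟩)
    · exact (dvd_pow_self 3 (by omega)).trans (q_pow_dvd_t (r := r) (i := 1) h3Q (by omega))
  · rw [sum_insert hx₀I, sum_image hinj]
    exact sum_identity r hr2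
  · intro x hx hne
    rcases mem_insert.1 hx with rfl | hx
    · exact absurd rfl hne
    · obtain ⟨i, hi, rfl⟩ := mem_image.1 hx
      exact hcop i hi

/-- For every `r ≥ 3` and every `m` with `1 + ⌈r / 2⌉ ≤ m ≤ 1 + ⌈r / 2⌉ + r` there is a set of `m`
`r`-powerful numbers with greatest common divisor `1` and an `r`-powerful sum. -/
theorem exists_set (r m : ℕ) (hr : 3 ≤ r) (hm1 : 1 + (r + 1) / 2 ≤ m)
    (hm2 : m ≤ 1 + (r + 1) / 2 + r) :
    ∃ S : Finset ℕ, S.card = m ∧ S.gcd id = 1 ∧ (∀ x ∈ S, Powerful r x) ∧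
      Powerful r (∑ x ∈ S, x) := by
  obtain ⟨S₀, hc₀, h₀⟩ := base r hr
  obtain ⟨j, hj⟩ : ∃ j, m = (1 + (r + 1) / 2) + j := ⟨m - (1 + (r + 1) / 2), by omega⟩
  obtain ⟨S, hc, h⟩ := steps (r := r) (by omega) j (2 * r - j) (by omega)
    (by rw [show 2 * r - j + j = 2 * r by omega]; exact h₀)
  refine ⟨S, by omega, ?_, h.pw, ?_⟩
  · have hcard : 1 < S.card := by omega
    obtain ⟨x, hx, hne⟩ := exists_mem_ne hcard ((U r - V r) ^ r)
    have h1 : S.gcd id ∣ x := Finset.gcd_dvd hx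
    have h2 : S.gcd id ∣ (U r - V r) ^ r := Finset.gcd_dvd h.mem
    have h3 := Nat.dvd_gcd h1 h2
    rw [Nat.Coprime.gcd_eq_one (h.cop x hx hne)] at h3
    exact Nat.dvd_one.1 h3
  · rw [h.sum]
    exact powerful_pow (by have := V_lt_U r (by omega); omega)

end Pool.Agent.N742.RPow
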